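import Mathlib

/-!
# Optimal edge-colourings of `K_n` without a rainbow cycle of length `n - 2`

For every `k ≥ 3` the complete graph on `n = 2 ^ k` vertices has an optimal edge-colouring in which
no cycle of length `n - 2` is rainbow.
-/

set_option autoImplicit false

namespace Pool.Agent.Results.MP_4bc86c_co.PowersOfTwo

open SimpleGraph Finset

/-- `c` is a proper edge-colouring of the complete graph on `Fin n`: two different edges with a
common endpoint get different colours (only the values of `c` at non-loops matter). -/
def IsProper {n : ℕ} (c : Sym2 (Fin n) → ℕ) : Prop :=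
  ∀ u v w : Fin n, u ≠ v → u ≠ w → v ≠ w → c s(u, v) ≠ c s(u, w)

/-- The number of colours that `c` uses on the edges of the complete graph on `Fin n`. -/
def numColours {n : ℕ} (c : Sym2 (Fin n) → ℕ) : ℕ :=
  ((⊤ : SimpleGraph (Fin n)).edgeFinset.image c).card

/-- `c` is an optimal edge-colouring of the complete graph on `Fin n`: it is proper and no proper
edge-colouring uses fewer colours. -/
def IsOptimal {n : ℕ} (c : Sym2 (Fin n) → ℕ) : Prop :=
  IsProper c ∧ ∀ c' : Sym2 (Fin n) → ℕ, IsProper c' → numColours c ≤ numColours c'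

/-- The colouring `c` of the complete graph on `Fin n` has a rainbow cycle of length `m`. -/
def HasRainbowCycle {n : ℕ} (c : Sym2 (Fin n) → ℕ) (m : ℕ) : Prop :=
  ∃ (v : Fin n) (p : (⊤ : SimpleGraph (Fin n)).Walk v v),
    p.IsCycle ∧ p.length = m ∧ (p.edges.map c).Nodup

/-- the sum of all vectors of `(ZMod 2) ^ k` is zero for `k ≥ 2` -/
theorem sum_all (k : ℕ) (hk : 2 ≤ k) : ∑ x : Fin k → ZMod 2, x = 0 := by
  funext i
  rw [Finset.sum_apply]
  obtain ⟨j, hj⟩ : ∃ j : Fin k, j ≠ i := by
    have : Nontrivial (Fin k) := Fin.nontrivial_iff_two_le.mpr hk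
    exact exists_ne i
  refine Finset.sum_involution (fun x _ => Function.update x j (x j + 1)) ?_ ?_ ?_ ?_
  · intro x _
    rw [Function.update_of_ne hj.symm]
    exact CharTwo.add_self_eq_zero _
  · intro x _ _ h
    have := congrFun h j
    simp at this
  · intro x _
    exact mem_univ _
  · intro x _
    funext l
    by_cases hl : l = j
    · subst hl
      simp only [Function.update_self]
      rw [add_assoc, CharTwo.add_self_eq_zero, add_zero]
    · simp [Function.update_of_ne hl]

/-- the sum of all nonzero vectors is zero -/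
theorem sum_nonzero (k : ℕ) (hk : 2 ≤ k) :
    ∑ x ∈ univ.filter (fun x : Fin k → ZMod 2 => x ≠ 0), x = 0 := by
  have h := sum_all k hk
  rw [← Finset.sum_filter_add_sum_filter_not univ (fun x : Fin k → ZMod 2 => x ≠ 0)] at h
  have h2 : ∑ x ∈ univ.filter (fun x : Fin k → ZMod 2 => ¬ x ≠ 0), x = 0 := by
    apply Finset.sum_eq_zero
    intro x hx
    simpa using hx
  rw [h2, add_zero] at h
  exact h

theorem self_add {k : ℕ} (x : Fin k → ZMod 2) : x + x = 0 := by
  funext i
  exact CharTwo.add_self_eq_zero _

/-- the colour sum along a walk -/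
theorem walk_sum {n k : ℕ} (e : Fin n → (Fin k → ZMod 2)) {u v : Fin n}
    (p : (⊤ : SimpleGraph (Fin n)).Walk u v) (g : Sym2 (Fin n) → (Fin k → ZMod 2))
    (hg : ∀ a b, g s(a, b) = e a + e b) :
    (p.edges.map g).sum = e u + e v := by
  induction p with
  | nil =>
    simp only [Walk.edges_nil, List.map_nil, List.sum_nil]
    exact (self_add _).symm
  | @cons a b c h p ih =>
    simp only [Walk.edges_cons, List.map_cons, List.sum_cons, ih, hg]
    have : e a + e b + (e b + e c) = e a + e c + (e b + e b) := by abel
    rw [this, self_add, add_zero]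

/-- For every `k ≥ 3` there is an optimal edge-colouring of the complete graph on `2 ^ k` vertices
that has no rainbow cycle of length `2 ^ k - 2`. -/
theorem result : ∀ k : ℕ, 3 ≤ k →
    ∃ c : Sym2 (Fin (2 ^ k)) → ℕ, IsOptimal c ∧ ¬ HasRainbowCycle c (2 ^ k - 2) := by
  intro k hk
  have hcard : Fintype.card (Fin k → ZMod 2) = 2 ^ k := by
    simp [ZMod.card]
  let e : Fin (2 ^ k) ≃ (Fin k → ZMod 2) := (Fintype.equivFinOfCardEq hcard).symm
  let g : Sym2 (Fin (2 ^ k)) → (Fin k → ZMod 2) :=
    Sym2.lift ⟨fun u v => e u + e v, fun u v => add_comm _ _⟩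
  have hg : ∀ a b, g s(a, b) = e a + e b := fun a b => by simp [g]
  have hginj : Function.Injective (fun x : Fin k → ZMod 2 => (e.symm x).val) := by
    intro x y h
    exact e.symm.injective (Fin.val_injective h)
  refine ⟨fun z => (e.symm (g z)).val, ⟨?_, ?_⟩, ?_⟩
  · -- proper
    intro u v w huv huw hvw h
    have h1 := hginj h
    rw [hg, hg] at h1
    exact hvw (e.injective (add_left_cancel h1))
  · -- optimal
    intro c' hc'
    have h1 : numColours (fun z => (e.symm (g z)).val) ≤ 2 ^ k - 1 := by
      unfold numColours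
      have hsub : (⊤ : SimpleGraph (Fin (2 ^ k))).edgeFinset.image (fun z => (e.symm (g z)).val) ⊆
          (univ.filter (fun x : Fin k → ZMod 2 => x ≠ 0)).image (fun x => (e.symm x).val) := by
        intro y hy
        obtain ⟨z, hz, rfl⟩ := mem_image.mp hy
        refine mem_image.mpr ⟨g z, ?_, rfl⟩
        rw [mem_filter]
        refine ⟨mem_univ _, ?_⟩
        revert hz
        refine Sym2.ind (fun a b => ?_) z
        intro hz h0
        rw [mem_edgeFinset, mem_edgeSet, top_adj] at hz
        rw [hg] at h0
        apply hz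
        apply e.injective
        have : e a = e a + (e b + e b) := by rw [self_add, add_zero]
        rw [this, ← add_assoc, h0, zero_add]
      refine le_trans (card_le_card hsub) (le_trans card_image_le ?_)
      have h2 : (univ.filter (fun x : Fin k → ZMod 2 => x ≠ 0)) = univ.erase 0 := by
        ext x; simp
      rw [h2, card_erase_of_mem (mem_univ _), card_univ, hcard]
    refine le_trans h1 ?_
    unfold numColours
    have hpos : 0 < 2 ^ k := by positivity
    let z0 : Fin (2 ^ k) := ⟨0, hpos⟩
    have h3 : ((univ : Finset (Fin (2 ^ k))).erase z0).card = 2 ^ k - 1 := by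
      rw [card_erase_of_mem (mem_univ _), card_univ, Fintype.card_fin]
    rw [← h3]
    apply card_le_card_of_injOn (fun v => c' s(z0, v))
    · intro v hv
      have hv' : v ≠ z0 := by simpa using hv
      rw [mem_coe]
      apply mem_image_of_mem
      rw [mem_edgeFinset, mem_edgeSet, top_adj]
      exact hv'.symm
    · intro v hv w hw h
      have hv' : v ≠ z0 := by simpa using hv
      have hw' : w ≠ z0 := by simpa using hw
      by_contra hne
      exact hc' z0 v w hv'.symm hw'.symm hne h
  · -- no rainbow cycle
    rintro ⟨v, p, hp, hlen, hnd⟩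
    have hmap : p.edges.map (fun z => (e.symm (g z)).val) =
        (p.edges.map g).map (fun x => (e.symm x).val) := by
      rw [List.map_map]; rfl
    rw [hmap] at hnd
    have hnd' : (p.edges.map g).Nodup := hnd.of_map _
    have hsum := walk_sum e p g hg
    rw [self_add] at hsum
    let S : Finset (Fin k → ZMod 2) := (p.edges.map g).toFinset
    have hScard : S.card = 2 ^ k - 2 := by
      rw [List.toFinset_card_of_nodup hnd', List.length_map, Walk.length_edges, hlen]
    have hSsum : ∑ x ∈ S, x = 0 := by
      rw [← hsum]
      have := List.sum_toFinset (fun x : Fin k → ZMod 2 => x) hnd'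
      rw [this, List.map_id']
    have hSsub : S ⊆ univ.filter (fun x : Fin k → ZMod 2 => x ≠ 0) := by
      intro x hx
      rw [List.mem_toFinset, List.mem_map] at hx
      obtain ⟨z, hz, rfl⟩ := hx
      rw [mem_filter]
      refine ⟨mem_univ _, ?_⟩
      have hz' := p.edges_subset_edgeSet hz
      revert hz'
      refine Sym2.ind (fun a b => ?_) z
      intro hz' h0
      rw [mem_edgeSet, top_adj] at hz'
      rw [hg] at h0
      apply hz'
      apply e.injective
      have : e a = e a + (e b + e b) := by rw [self_add, add_zero]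
      rw [this, ← add_assoc, h0, zero_add]
    have hN : (univ.filter (fun x : Fin k → ZMod 2 => x ≠ 0)).card = 2 ^ k - 1 := by
      have h2 : (univ.filter (fun x : Fin k → ZMod 2 => x ≠ 0)) = univ.erase 0 := by
        ext x; simp
      rw [h2, card_erase_of_mem (mem_univ _), card_univ, hcard]
    have h8 : 8 ≤ 2 ^ k := by
      calc 8 = 2 ^ 3 := by norm_num
        _ ≤ 2 ^ k := Nat.pow_le_pow_right (by norm_num) hk
    have hdiff : ((univ.filter (fun x : Fin k → ZMod 2 => x ≠ 0)) \ S).card = 1 := by
      rw [card_sdiff_of_subset hSsub, hN, hScard]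
      omega
    obtain ⟨m, hm⟩ := card_eq_one.mp hdiff
    have hmz : m ≠ 0 := by
      have : m ∈ (univ.filter (fun x : Fin k → ZMod 2 => x ≠ 0)) \ S := by rw [hm]; simp
      rw [mem_sdiff, mem_filter] at this
      exact this.1.2
    have htot := sum_nonzero k (by omega)
    rw [← Finset.sum_sdiff hSsub, hm, hSsum, add_zero, sum_singleton] at htot
    exact hmz htot

end Pool.Agent.Results.MP_4bc86c_co.PowersOfTwo
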